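import Pool.Agent.Helper704_ZO.Translate

/-!
The zero-one law for order-invariant first-order logic, a positive answer to Q1. The sentences are
the sentences of Mathlib's first-order logic over the signature with the edge relation, the order
and one unary symbol for every colour.

Outline of the proof (the files are in `Pool/Agent/Helper704_ZO/`).

1. A property of coloured graphs on `N` vertices that is invariant under all permutations of the
   vertices and is computed by circuits of bounded depth and polynomial size has a probability `p`
   with `p (1 - p)` at most `N ^ (-3/4 + o(1))` (`Induct.lean`). For this `p (1 - p)` is bounded by
   replacing the bits of the random configuration one at a time (`Hybrid.lean`); the resulting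
   sums run over tuples of marked bits (`Marks.lean`), one of the two copies is moved by a random
   permutation of the vertices (`Perm.lean`), and the sums are estimated by induction on the depth
   of the circuits, with the bound on the expected number of tuples of relevant bits that comes
   from random vertex restrictions (`Junta.lean`, `Dnf.lean`, `Level.lean`, `Sens.lean`).
2. With an additional colour the sentence is relativised to a random set `W` of vertices with the
   induced order; this gives one property whose probability is a mixture of the numbers
   `mu φ n`, and the weights of `n` and `n + 1` are at least of order `N ^ (-1/2)` for
   `N = 2 n + 1` (`Formula.lean`, `Final.lean`). So `mu φ n` and `mu φ (n + 1)` are both close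
   to `0` or both close to `1`.
-/

namespace Pool.Agent.Results.MP_1bef6e_lc.ZeroOneLaw

open Filter Topology
open Pool.Agent.Helper704_ZO.FO

/-- The zero-one law for order-invariant first-order logic: for every finite set `C` of colours
and every order-invariant first-order sentence `φ` over the edge relation, the order and the
colours, the fraction `mu φ n` of the labelled coloured graphs on `n` vertices that satisfy `φ`
converges to `0` or to `1`. -/
theorem result (C : Type) [Finite C] (φ : (Sig C).Sentence) (hφ : OrderInvariant φ) :
    Tendsto (mu φ) atTop (𝓝 0) ∨ Tendsto (mu φ) atTop (𝓝 1) :=
  zero_one_law C φ hφ

end Pool.Agent.Results.MP_1bef6e_lc.ZeroOneLaw
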